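import Mathlib
import Pool.Agent.Lib.MP_4d1bc1_mp.Main

set_option autoImplicit false

/-!
# Higher symmetries of the flagged family of isotropic vector equations

For the family
`u_t = u_xxx - 3 (u_[0,1]/u_[0,0]) u_xx + (6 u_[0,1]^2/u_[0,0]^2 - 3 u_[0,2]/u_[0,0]) u_x
  + (a1 u_[1,2] + a2 u_[0,1] u_[0,2] + a3 u_[0,1] u_[1,1] + a4 u_[0,1]^3) u`,
with `a1, a2, a3, a4` arbitrary functions of `u_[0,0]`, we determine exactly which members have
a symmetry of order at least five; these have symmetries of every odd order.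
-/

namespace Pool.Agent.Results.MP_4d1bc1_mp.HigherSymmetries

open Polynomial

universe u

/-- The index set of the independent variables `u_[i,j]`, `i ≤ j`. -/
abbrev Idx : Type := {a : ℕ × ℕ // a.1 ≤ a.2}

/-- The index of the scalar product of the `i`-th and the `j`-th derivative. -/
def idx (i j : ℕ) : Idx := ⟨(min i j, max i j), by simp⟩

/-- A field `F` of functions of finitely many of the independent variables `u_[i,j]`, `i ≤ j`:
it contains the variables, and it has commuting partial derivatives with respect to them, only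
finitely many of which are nonzero on a given function. -/
structure FunctionField (F : Type u) [Field F] [Algebra ℝ F] where
  /-- the variable `u_[i,j]` -/
  var : Idx → F
  /-- the partial derivative with respect to `u_[i,j]` -/
  pd : Idx → Derivation ℝ F F
  pd_var : ∀ a b, pd a (var b) = if a = b then 1 else 0
  pd_comm : ∀ a b f, pd a (pd b f) = pd b (pd a f)
  pd_fin : ∀ f, {a | pd a f ≠ 0}.Finite

variable {F : Type u} [Field F] [Algebra ℝ F]

namespace FunctionField

variable (K : FunctionField F)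

/-- The function `u_[i,j] = u_[j,i]`. -/
def u (i j : ℕ) : F := K.var (idx i j)

/-- The derivative of the function `f` along the vector field that sends every `u_[i,j]`, `i ≤ j`,
to `e i j`. -/
noncomputable def along (e : ℕ → ℕ → F) (f : F) : F := ∑ᶠ a : Idx, e a.1.1 a.1.2 * K.pd a f

/-- The total `x`-derivative of a function: `u_[i,j]` goes to `u_[i+1,j] + u_[i,j+1]`. -/
noncomputable def D (f : F) : F := K.along (fun i j => K.u (i + 1) j + K.u i (j + 1)) f

/-- The polynomial `∑ g_i X^i` stands for the vector `∑ g_i u_i`, where `u_i` is the `i`-th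
`x`-derivative of the vector `u`. This is the total `x`-derivative of vectors:
`∑ g_i u_i` goes to `∑ (D g_i) u_i + g_i u_(i+1)`. -/
noncomputable def DV (G : F[X]) : F[X] := G.sum fun i g => C (K.D g) * X ^ i + C g * X ^ (i + 1)

/-- The scalar product of the vectors `∑ g_i u_i` and `∑ h_j u_j`, that is
`∑ g_i h_j u_[i,j]`. -/
noncomputable def ip (G H : F[X]) : F := G.sum fun i g => H.sum fun j h => g * h * K.u i j

/-- The derivative of the function `f` along the flow `u_τ = G`: as `u_i` has the derivative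
`D^i G`, the function `u_[i,j]` goes to `⟨D^i G, u_j⟩ + ⟨u_i, D^j G⟩`. -/
noncomputable def flow (G : F[X]) (f : F) : F :=
  K.along (fun i j => K.ip (K.DV^[i] G) (X ^ j) + K.ip (X ^ i) (K.DV^[j] G)) f

/-- The derivative of the vector `∑ h_i u_i` along the flow `u_τ = G`, that is
`∑ (h_i)_τ u_i + h_i D^i G`. -/
noncomputable def flowV (G H : F[X]) : F[X] :=
  H.sum fun i h => C (K.flow G h) * X ^ i + C h * K.DV^[i] G

/-- `u_τ = G` is a symmetry of order `m` of `u_t = E`: `G = g_m u_m + ... + g_0 u` with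
`g_m ≠ 0`, and the two flows commute, that is `(u_τ)_t = (u_t)_τ` (for `m > 0`). -/
def IsSymmetry (E : F[X]) (m : ℕ) (G : F[X]) : Prop :=
  G.natDegree = m ∧ K.flowV E G = K.flowV G E

/-- `f` is a function of `u_[0,0]` only. -/
def IsRadial (f : F) : Prop := ∀ b, b ≠ idx 0 0 → K.pd b f = 0

/-- The derivative of a function of `u_[0,0]`. -/
noncomputable def deriv (f : F) : F := K.pd (idx 0 0) f

/-- The right-hand side of the family of the last bullet of the problem. -/
noncomputable def rhs (a1 a2 a3 a4 : F) : F[X] :=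
  X ^ 3 + C (-3 * (K.u 0 1 / K.u 0 0)) * X ^ 2
    + C (6 * (K.u 0 1 ^ 2 / K.u 0 0 ^ 2) - 3 * (K.u 0 2 / K.u 0 0)) * X
    + C (a1 * K.u 1 2 + a2 * K.u 0 1 * K.u 0 2 + a3 * K.u 0 1 * K.u 1 1 + a4 * K.u 0 1 ^ 3)

/-- The first family: `a2`, `a4` are arbitrary, `a1 = 3/w`, `a3 = a2 - 6/w²`, where
`w = u_[0,0]`. -/
def FamilyA (a1 a2 a3 : F) : Prop :=
  a1 = 3 / K.u 0 0 ∧ a3 = a2 - 6 / K.u 0 0 ^ 2

/-- The second family: `a1` is arbitrary with `a1 w ≠ 3`, where `w = u_[0,0]`, and
`a2 = (6 a1' + a1²)/(3 - a1 w)`, `a3 = a2 - a1/w`,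
`a4 = (6 a1' + 6 w a2' - 12 a2 + (a1 + a2 w)²)/(9 w)`. -/
def FamilyB (a1 a2 a3 a4 : F) : Prop :=
  a1 * K.u 0 0 ≠ 3 ∧ a2 = (6 * K.deriv a1 + a1 ^ 2) / (3 - a1 * K.u 0 0) ∧
    a3 = a2 - a1 / K.u 0 0 ∧
    a4 = (6 * K.deriv a1 + 6 * K.u 0 0 * K.deriv a2 - 12 * a2 + (a1 + a2 * K.u 0 0) ^ 2)
      / (9 * K.u 0 0)

/-! ### comparison with the library -/

/-- the library structure -/
def jet : Lib.MP_4d1bc1_mp.Jet F := ⟨⟨K.pd, K.pd_comm, K.pd_fin⟩, K.var, K.pd_var⟩

theorem jet_u (i j : ℕ) : K.jet.u i j = K.u i j := rfl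

theorem jet_D (f : F) : K.jet.D f = K.D f := rfl

theorem jet_DM (G : F[X]) : K.jet.DM G = K.DV G := by
  have h0 : ∀ f : F, K.D f = K.jet.D f := fun f => (K.jet_D f).symm
  unfold DV
  simp only [h0]
  induction G using Polynomial.induction_on' with
  | add U V hU hV =>
    rw [map_add, hU, hV, Polynomial.sum_add_index _ _ _ (by simp)
      (by intro a b c; simp only [map_add]; ring)]
  | monomial n a =>
    rw [Polynomial.sum_monomial_index _ _ (by simp), ← C_mul_X_pow_eq_monomial,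
      Lib.MP_4d1bc1_mp.Jet.DM_C_mul, Lib.MP_4d1bc1_mp.Jet.DM_X_pow]

theorem jet_ip (G H : F[X]) : K.jet.ip G H = K.ip G H := by
  unfold ip
  induction G using Polynomial.induction_on' with
  | add U V hU hV =>
    rw [Lib.MP_4d1bc1_mp.Jet.ip_add_left, hU, hV, Polynomial.sum_add_index _ _ _
      (by intro i; simp [Polynomial.sum_def])
      (by intro a b c; simp only [Polynomial.sum_def, add_mul, Finset.sum_add_distrib])]
  | monomial n a =>
    rw [Polynomial.sum_monomial_index _ _ (by simp [Polynomial.sum_def])]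
    induction H using Polynomial.induction_on' with
    | add U V hU hV =>
      rw [Lib.MP_4d1bc1_mp.Jet.ip_add_right, hU, hV, Polynomial.sum_add_index _ _ _
        (by simp) (by intro a b c; ring)]
    | monomial m b =>
      rw [Polynomial.sum_monomial_index _ _ (by simp), Lib.MP_4d1bc1_mp.Jet.ip_monomial, jet_u]

theorem jet_iter (G : F[X]) (n : ℕ) : K.jet.DM^[n] G = K.DV^[n] G := by
  induction n with
  | zero => rfl
  | succ n ih => rw [Function.iterate_succ_apply', Function.iterate_succ_apply', ih, jet_DM]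

theorem jet_evo (G : F[X]) (f : F) : K.jet.evo G f = K.flow G f := by
  have h : K.jet.evo G f = K.along (fun i j => K.jet.ip (K.jet.DM^[i] G) (X ^ j)
    + K.jet.ip (X ^ i) (K.jet.DM^[j] G)) f := rfl
  rw [h, flow]
  simp only [jet_ip, jet_iter]

theorem jet_evoV (G H : F[X]) : K.jet.evoV G H = K.flowV G H := by
  have h0 : ∀ f : F, K.flow G f = K.jet.evo G f := fun f => (K.jet_evo G f).symm
  unfold flowV
  simp only [h0]
  induction H using Polynomial.induction_on' with
  | add U V hU hV =>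
    rw [map_add, hU, hV, Polynomial.sum_add_index _ _ _ (by simp)
      (by intro a b c; simp only [map_add]; ring)]
  | monomial n a =>
    rw [Polynomial.sum_monomial_index _ _ (by simp), ← C_mul_X_pow_eq_monomial,
      Lib.MP_4d1bc1_mp.Jet.evoV_C_mul, Lib.MP_4d1bc1_mp.Jet.evoV_X_pow, jet_iter]

theorem symmetry_iff (a1 a2 a3 a4 : F) (m : ℕ) (G : F[X]) :
    K.IsSymmetry (K.rhs a1 a2 a3 a4) m G ↔ G.natDegree = m ∧
      K.jet.evoV (Lib.MP_4d1bc1_mp.Link.eqn K.jet a1 a2 a3 a4) G
      = K.jet.evoV G (Lib.MP_4d1bc1_mp.Link.eqn K.jet a1 a2 a3 a4) := by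
  rw [jet_evoV, jet_evoV]
  rfl

theorem deriv_mul_u (f : F) : K.deriv (f * K.u 0 0) = K.deriv f * K.u 0 0 + f := by
  have h : K.pd (idx 0 0) (K.var (idx 0 0)) = 1 := by rw [K.pd_var, if_pos rfl]
  unfold deriv u
  rw [Derivation.leibniz, h]
  simp only [smul_eq_mul]
  ring

theorem family_iff (hw : K.u 0 0 ≠ 0) (a1 a2 a3 a4 : F) :
    (Lib.MP_4d1bc1_mp.Case1 (K.u 0 0) a1 a2 a3 ∨
      Lib.MP_4d1bc1_mp.Case2 (K.u 0 0) a1 a2 a3 a4 (K.deriv a1) (K.deriv a2))
    ↔ (K.FamilyA a1 a2 a3 ∨ K.FamilyB a1 a2 a3 a4) := by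
  have := K.jet.charZero
  have h3 : (3 : F) ≠ 0 := three_ne_zero
  have hA : Lib.MP_4d1bc1_mp.Case1 (K.u 0 0) a1 a2 a3 ↔ K.FamilyA a1 a2 a3 := by
    unfold Lib.MP_4d1bc1_mp.Case1 FamilyA
    constructor
    · rintro ⟨e1, e2⟩
      refine ⟨by rw [eq_div_iff hw, e1], ?_⟩
      field_simp
      linear_combination e2
    · rintro ⟨e1, e2⟩
      refine ⟨by rw [e1]; field_simp, ?_⟩
      rw [e2]; field_simp; ring
  have hB : Lib.MP_4d1bc1_mp.Case2 (K.u 0 0) a1 a2 a3 a4 (K.deriv a1) (K.deriv a2)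
      ↔ K.FamilyB a1 a2 a3 a4 := by
    unfold Lib.MP_4d1bc1_mp.Case2 FamilyB
    constructor
    · rintro ⟨e1, e2, e3⟩
      have hne : a1 * K.u 0 0 ≠ 3 := by
        intro h
        have h4 := K.deriv_mul_u a1
        have h5 : K.deriv (3 : F) = 0 := Lib.MP_4d1bc1_mp.der_ofNat _ 3
        rw [h, h5] at h4
        have h6 : (9 : F) = 0 := by
          linear_combination -(K.u 0 0) ^ 2 * e2 - 6 * K.u 0 0 * h4
            + (a1 * K.u 0 0 - 3 + a2 * K.u 0 0 ^ 2) * h
        exact absurd h6 (by norm_num)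
      have hne' : 3 - a1 * K.u 0 0 ≠ 0 := fun h => hne (sub_eq_zero.1 h).symm
      refine ⟨hne, ?_, ?_, ?_⟩
      · rw [eq_div_iff hne']
        linear_combination -e2
      · field_simp
        linear_combination e1
      · rw [eq_div_iff (mul_ne_zero (by norm_num) hw)]
        linear_combination e3
    · rintro ⟨hne, e1, e2, e3⟩
      have hne' : 3 - a1 * K.u 0 0 ≠ 0 := fun h => hne (sub_eq_zero.1 h).symm
      refine ⟨?_, ?_, ?_⟩
      · rw [e2]; field_simp; ring
      · rw [eq_div_iff hne'] at e1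
        linear_combination -e1
      · rw [eq_div_iff (mul_ne_zero (by norm_num) hw)] at e3
        linear_combination e3
  rw [hA, hB]

end FunctionField

/-- Let `a1, a2, a3, a4` be functions of `u_[0,0]` in a function field containing the length
`R = |u|`. The following are equivalent: the equation of the family with these coefficients
has a symmetry of some order `m ≥ 5`; it has symmetries of infinitely many orders; it has
symmetries of every odd order; its coefficients belong to the first or to the second family. -/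
theorem result (K : FunctionField F) (R : F) (hR : R ^ 2 = K.u 0 0) (a1 a2 a3 a4 : F)
    (h1 : K.IsRadial a1) (h2 : K.IsRadial a2) (h3 : K.IsRadial a3) (h4 : K.IsRadial a4) :
    List.TFAE [
      ∃ m, 5 ≤ m ∧ ∃ G : F[X], K.IsSymmetry (K.rhs a1 a2 a3 a4) m G,
      {m : ℕ | ∃ G : F[X], K.IsSymmetry (K.rhs a1 a2 a3 a4) m G}.Infinite,
      ∀ m : ℕ, Odd m → ∃ G : F[X], K.IsSymmetry (K.rhs a1 a2 a3 a4) m G,
      K.FamilyA a1 a2 a3 ∨ K.FamilyB a1 a2 a3 a4] := by
  have hroot : K.jet.IsRoot R := ⟨hR⟩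
  obtain ⟨p, L⟩ := hroot.link
  have hw : K.u 0 0 ≠ 0 := by
    rw [← hR]
    exact pow_ne_zero _ hroot.ne
  tfae_have 1 → 4 := by
    rintro ⟨m, hm, G, hG⟩
    obtain ⟨g1, g2⟩ := (K.symmetry_iff a1 a2 a3 a4 m G).1 hG
    exact (K.family_iff hw a1 a2 a3 a4).1 (L.necessary h1 h2 h3 h4 hm g1 g2)
  tfae_have 4 → 3 := by
    intro h m hm
    obtain ⟨G, g1, g2⟩ := L.sufficient h1 h2 h3 h4 ((K.family_iff hw a1 a2 a3 a4).2 h) hm
    exact ⟨G, (K.symmetry_iff a1 a2 a3 a4 m G).2 ⟨g1, g2⟩⟩
  tfae_have 3 → 2 := by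
    intro h
    refine Set.infinite_of_injective_forall_mem (f := fun k : ℕ => 2 * k + 1) ?_ ?_
    · intro a b hab
      have : 2 * a + 1 = 2 * b + 1 := hab
      omega
    · intro k
      exact h (2 * k + 1) ⟨k, rfl⟩
  tfae_have 2 → 1 := by
    intro h
    obtain ⟨m, hm, hm5⟩ := h.exists_gt 4
    exact ⟨m, hm5, hm⟩
  tfae_finish

end Pool.Agent.Results.MP_4d1bc1_mp.HigherSymmetries
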