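import Mathlib
import Pool.Agent.Lib.MP_4d1bc1_mp.Kv.Cons
import Pool.Agent.Lib.MP_4d1bc1_mp.Kv.Hier.All
import Pool.Agent.Lib.MP_4d1bc1_mp.Kv.Hier.AllC

set_option autoImplicit false

/-!
# Integrable isotropic vector equations `u_t = u_xxx + f u_x`

We determine all functions `f` of the six scalar products `u_[i,j]`, `i ≤ j ≤ 2`, for which the
equation `u_t = u_xxx + f u_x` has a symmetry of some order at least eight, or a conservation law
whose variational derivative has order at least eleven. There are three families; all their members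
have symmetries of every odd order and conservation laws of every even order at least four.
-/

namespace Pool.Agent.Results.MP_4d1bc1_mp.OnlyF1

open Polynomial

universe u

/-- The index set of the independent variables `u_[i,j]`, `i ≤ j`. -/
abbrev Idx : Type := {a : ℕ × ℕ // a.1 ≤ a.2}

/-- The index of the scalar product of the `i`-th and the `j`-th derivative. -/
def idx (i j : ℕ) : Idx := ⟨(min i j, max i j), by simp⟩

/-- A field `F` of functions of finitely many of the independent variables `u_[i,j]`, `i ≤ j`: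
it contains the variables, and it has commuting partial derivatives with respect to them, only
finitely many of which are nonzero on a given function. -/
structure FunctionField (F : Type u) [Field F] [Algebra ℝ F] where
  /-- the variable `u_[i,j]` -/
  var : Idx → F
  /-- the partial derivative with respect to `u_[i,j]` -/
  pd : Idx → Derivation ℝ F F
  pd_var : ∀ a b, pd a (var b) = if a = b then 1 else 0
  pd_comm : ∀ a b f, pd a (pd b f) = pd b (pd a f)
  pd_fin : ∀ f, {a | pd a f ≠ 0}.Finite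

variable {F : Type u} [Field F] [Algebra ℝ F]

/-- The right-hand side `u_xxx + f u_x`; the polynomial `∑ g_i X^i` stands for the vector
`∑ g_i u_i`, where `u_i` is the `i`-th `x`-derivative of the vector `u`. -/
noncomputable def rhs (f : F) : F[X] := X ^ 3 + C f * X

namespace FunctionField

variable (K : FunctionField F)

/-- The function `u_[i,j] = u_[j,i]`. -/
def u (i j : ℕ) : F := K.var (idx i j)

/-- The derivative of the function `f` along the vector field that sends every `u_[i,j]`, `i ≤ j`,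
to `e i j`. -/
noncomputable def along (e : ℕ → ℕ → F) (f : F) : F := ∑ᶠ a : Idx, e a.1.1 a.1.2 * K.pd a f

/-- The total `x`-derivative of a function: `u_[i,j]` goes to `u_[i+1,j] + u_[i,j+1]`. -/
noncomputable def D (f : F) : F := K.along (fun i j => K.u (i + 1) j + K.u i (j + 1)) f

/-- The polynomial `∑ g_i X^i` stands for the vector `∑ g_i u_i`, where `u_i` is the `i`-th
`x`-derivative of the vector `u`. This is the total `x`-derivative of vectors:
`∑ g_i u_i` goes to `∑ (D g_i) u_i + g_i u_(i+1)`. -/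
noncomputable def DV (G : F[X]) : F[X] := G.sum fun i g => C (K.D g) * X ^ i + C g * X ^ (i + 1)

/-- The scalar product of the vectors `∑ g_i u_i` and `∑ h_j u_j`, that is
`∑ g_i h_j u_[i,j]`. -/
noncomputable def ip (G H : F[X]) : F := G.sum fun i g => H.sum fun j h => g * h * K.u i j

/-- The derivative of the function `f` along the flow `u_τ = G`: as `u_i` has the derivative
`D^i G`, the function `u_[i,j]` goes to `⟨D^i G, u_j⟩ + ⟨u_i, D^j G⟩`. -/
noncomputable def flow (G : F[X]) (f : F) : F :=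
  K.along (fun i j => K.ip (K.DV^[i] G) (X ^ j) + K.ip (X ^ i) (K.DV^[j] G)) f

/-- The derivative of the vector `∑ h_i u_i` along the flow `u_τ = G`, that is
`∑ (h_i)_τ u_i + h_i D^i G`. -/
noncomputable def flowV (G H : F[X]) : F[X] :=
  H.sum fun i h => C (K.flow G h) * X ^ i + C h * K.DV^[i] G

/-- `u_τ = G` is a symmetry of order `m` of `u_t = E`: `G = g_m u_m + ... + g_0 u` with
`g_m ≠ 0`, and the two flows commute, that is `(u_τ)_t = (u_t)_τ` (for `m > 0`). -/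
def IsSymmetry (E : F[X]) (m : ℕ) (G : F[X]) : Prop :=
  G.natDegree = m ∧ K.flowV E G = K.flowV G E

/-- The gradient of the function `f` with respect to the vector `u_k`, that is
`∑_j (1 + δ_jk) ∂f/∂u_[j,k] u_j`. -/
noncomputable def grad (k : ℕ) (f : F) : F[X] :=
  ∑ᶠ j : ℕ, C ((if j = k then 2 else 1) * K.pd (idx j k) f) * X ^ j

/-- The variational derivative `∑_k (-D)^k (∂f/∂u_k)`. -/
noncomputable def varDer (f : F) : F[X] := ∑ᶠ k : ℕ, (-1) ^ k * K.DV^[k] (K.grad k f)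

/-- `(ρ, σ)` is a conservation law of order `m` of `u_t = E`: `ρ_t = D σ`, and the variational
derivative `v_m u_m + ... + v_0 u` of `ρ` has `v_m ≠ 0` (for `m > 0`). -/
def IsConservationLaw (E : F[X]) (m : ℕ) (ρ σ : F) : Prop :=
  K.flow E ρ = K.D σ ∧ (K.varDer ρ).natDegree = m

/-- `f` is a function of the six variables `u_[i,j]`, `i ≤ j ≤ 2`. -/
def IsSix (f : F) : Prop := ∀ b : Idx, 2 < b.1.2 → K.pd b f = 0

/-- `c` is a constant: all its partial derivatives vanish. -/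
def IsConst (c : F) : Prop := ∀ b, K.pd b c = 0

/-- `f = c1 u_[0,0] + c0`. -/
def FamilyA (f : F) : Prop := ∃ c1 c0, K.IsConst c1 ∧ K.IsConst c0 ∧ f = c1 * K.u 0 0 + c0

/-- `f = (3/2) (a² u_[1,2]² / (1 + a u_[1,1]) - a u_[2,2]) + c0`. -/
def FamilyB (f : F) : Prop := ∃ a c0, K.IsConst a ∧ K.IsConst c0 ∧ a ≠ 0 ∧
  f = 3 / 2 * (a ^ 2 * K.u 1 2 ^ 2 / (1 + a * K.u 1 1) - a * K.u 2 2) + c0

/-- `f = (3/2) (a² u_[1,2]² / Z - a u_[2,2])
  + (3/(2a)) (a u_[0,2] - 1 - a² u_[0,1] u_[1,2] / Z)² / (u_[0,0] + κ - a u_[0,1]² / Z) + c0`,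
where `Z = 1 + a u_[1,1]`. -/
def FamilyC (f : F) : Prop := ∃ a κ c0, K.IsConst a ∧ K.IsConst κ ∧ K.IsConst c0 ∧ a ≠ 0 ∧
  f = 3 / 2 * (a ^ 2 * K.u 1 2 ^ 2 / (1 + a * K.u 1 1) - a * K.u 2 2)
    + 3 / (2 * a) * (a * K.u 0 2 - 1 - a ^ 2 * K.u 0 1 * K.u 1 2 / (1 + a * K.u 1 1)) ^ 2
      / (K.u 0 0 + κ - a * K.u 0 1 ^ 2 / (1 + a * K.u 1 1)) + c0

/-! ### comparison with the library -/

/-- the library structure -/
def jet : Lib.MP_4d1bc1_mp.Kv.Jet F := ⟨⟨K.pd, K.pd_comm, K.pd_fin⟩, K.var, K.pd_var⟩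

theorem jet_u (i j : ℕ) : K.jet.u i j = K.u i j := rfl

theorem jet_D (f : F) : K.jet.D f = K.D f := rfl

theorem jet_DM (G : F[X]) : K.jet.DM G = K.DV G := by
  have h0 : ∀ f : F, K.D f = K.jet.D f := fun f => (K.jet_D f).symm
  unfold DV
  simp only [h0]
  induction G using Polynomial.induction_on' with
  | add U V hU hV =>
    rw [map_add, hU, hV, Polynomial.sum_add_index _ _ _ (by simp)
      (by intro a b c; simp only [map_add]; ring)]
  | monomial n a =>
    rw [Polynomial.sum_monomial_index _ _ (by simp), ← C_mul_X_pow_eq_monomial,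
      Lib.MP_4d1bc1_mp.Kv.Jet.DM_C_mul, Lib.MP_4d1bc1_mp.Kv.Jet.DM_X_pow]

theorem jet_ip (G H : F[X]) : K.jet.ip G H = K.ip G H := by
  unfold ip
  induction G using Polynomial.induction_on' with
  | add U V hU hV =>
    rw [Lib.MP_4d1bc1_mp.Kv.Jet.ip_add_left, hU, hV, Polynomial.sum_add_index _ _ _
      (by intro i; simp [Polynomial.sum_def])
      (by intro a b c; simp only [Polynomial.sum_def, add_mul, Finset.sum_add_distrib])]
  | monomial n a =>
    rw [Polynomial.sum_monomial_index _ _ (by simp [Polynomial.sum_def])]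
    induction H using Polynomial.induction_on' with
    | add U V hU hV =>
      rw [Lib.MP_4d1bc1_mp.Kv.Jet.ip_add_right, hU, hV, Polynomial.sum_add_index _ _ _
        (by simp) (by intro a b c; ring)]
    | monomial m b =>
      rw [Polynomial.sum_monomial_index _ _ (by simp), Lib.MP_4d1bc1_mp.Kv.Jet.ip_monomial, jet_u]

theorem jet_iter (G : F[X]) (n : ℕ) : K.jet.DM^[n] G = K.DV^[n] G := by
  induction n with
  | zero => rfl
  | succ n ih => rw [Function.iterate_succ_apply', Function.iterate_succ_apply', ih, jet_DM]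

theorem jet_evo (G : F[X]) (f : F) : K.jet.evo G f = K.flow G f := by
  have h : K.jet.evo G f = K.along (fun i j => K.jet.ip (K.jet.DM^[i] G) (X ^ j)
    + K.jet.ip (X ^ i) (K.jet.DM^[j] G)) f := rfl
  rw [h, flow]
  simp only [jet_ip, jet_iter]

theorem jet_evoV (G H : F[X]) : K.jet.evoV G H = K.flowV G H := by
  have h0 : ∀ f : F, K.flow G f = K.jet.evo G f := fun f => (K.jet_evo G f).symm
  unfold flowV
  simp only [h0]
  induction H using Polynomial.induction_on' with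
  | add U V hU hV =>
    rw [map_add, hU, hV, Polynomial.sum_add_index _ _ _ (by simp)
      (by intro a b c; simp only [map_add]; ring)]
  | monomial n a =>
    rw [Polynomial.sum_monomial_index _ _ (by simp), ← C_mul_X_pow_eq_monomial,
      Lib.MP_4d1bc1_mp.Kv.Jet.evoV_C_mul, Lib.MP_4d1bc1_mp.Kv.Jet.evoV_X_pow, jet_iter]

theorem symmetry_iff (f : F) (m : ℕ) (G : F[X]) :
    K.IsSymmetry (rhs f) m G ↔ G.natDegree = m ∧
      K.jet.evoV (Lib.MP_4d1bc1_mp.Kv.Jet.K3 f) G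
      = K.jet.evoV G (Lib.MP_4d1bc1_mp.Kv.Jet.K3 f) := by
  rw [jet_evoV, jet_evoV]
  rfl

theorem jet_grad (k : ℕ) (f : F) : K.jet.grad k f = K.grad k f := by
  obtain ⟨N, hN⟩ := K.jet.exists_bd f
  have hz : ∀ j, N ≤ j → (K.jet.grad k f).coeff j = 0 := by
    intro j hj
    rw [Lib.MP_4d1bc1_mp.Kv.Jet.coeff_grad]
    exact K.jet.Gu_eq_zero_of_bd hN (Or.inl hj)
  have hc : ∀ j, (K.jet.grad k f).coeff j = (if j = k then 2 else 1) * K.pd (idx j k) f := by
    intro j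
    rw [Lib.MP_4d1bc1_mp.Kv.Jet.coeff_grad, Lib.MP_4d1bc1_mp.Kv.Jet.Gu_apply]
    rfl
  have e : K.grad k f = ∑ᶠ j : ℕ, C ((K.jet.grad k f).coeff j) * X ^ j := by
    unfold grad
    exact finsum_congr fun j => by rw [hc j]
  rw [e, finsum_eq_sum_of_support_subset (s := Finset.range N)]
  · refine Polynomial.ext fun n => ?_
    rw [finsetSum_coeff]
    simp only [coeff_C_mul, coeff_X_pow, mul_ite, mul_one, mul_zero]
    rw [Finset.sum_ite_eq (Finset.range N) n]
    by_cases h : n ∈ Finset.range N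
    · rw [if_pos h]
    · rw [if_neg h]
      exact hz n (not_lt.1 fun h' => h (Finset.mem_range.2 h'))
  · intro j hj
    simp only [Function.mem_support] at hj
    rw [Finset.coe_range, Set.mem_Iio]
    by_contra h
    apply hj
    rw [hz j (not_lt.1 h)]
    simp

theorem jet_varDer (f : F) {N : ℕ} (hN : K.jet.Bd f N) : K.jet.del 1 f N = K.varDer f := by
  unfold varDer
  rw [finsum_eq_sum_of_support_subset (s := Finset.range N)]
  · rw [Lib.MP_4d1bc1_mp.Kv.Jet.del]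
    refine Finset.sum_congr rfl fun k _ => ?_
    rw [C_1, one_mul, jet_iter, jet_grad]
  · intro k hk
    simp only [Function.mem_support] at hk
    rw [Finset.coe_range, Set.mem_Iio]
    by_contra h
    apply hk
    rw [← jet_grad, hN k (not_lt.1 h), ← jet_iter, Lib.MP_4d1bc1_mp.Kv.Jet.iter_zero', mul_zero]

theorem H_ne_zero {a κ : F} (ha : K.IsConst a) (hκ : K.IsConst κ) :
    K.u 0 0 + κ - a * K.u 0 1 ^ 2 * (Lib.MP_4d1bc1_mp.Kv.rZ K.jet a)⁻¹ ≠ 0 := by
  intro h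
  have hx : ∀ c : F, (K.jet.pd 0 0) c = K.pd (idx 0 0) c := fun _ => rfl
  have h1 := congrArg (K.jet.pd 0 0) h
  have e1 : K.jet.pd 0 0 (K.jet.u 0 0) = 1 := by rw [Lib.MP_4d1bc1_mp.Kv.Jet.pd_u]; simp
  have e2 : K.jet.pd 0 0 (K.jet.u 0 1) = 0 := by rw [Lib.MP_4d1bc1_mp.Kv.Jet.pd_u]; simp
  have e3 : K.jet.pd 0 0 (K.jet.u 1 1) = 0 := by rw [Lib.MP_4d1bc1_mp.Kv.Jet.pd_u]; simp
  have e4 : K.jet.pd 0 0 (1 : F) = 0 := Derivation.map_one_eq_zero _
  have e5 : K.jet.pd 0 0 (Lib.MP_4d1bc1_mp.Kv.rZ K.jet a) = 0 := by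
    rw [Lib.MP_4d1bc1_mp.Kv.rZ, map_add, Lib.MP_4d1bc1_mp.Kv.der_mul, e4, e3, hx a, ha]; ring
  have e6 := Lib.MP_4d1bc1_mp.Kv.der_inv_zero _ e5
  have e7 : K.jet.pd 0 0 (K.u 0 0) = 1 := e1
  have e8 : K.jet.pd 0 0 (K.u 0 1) = 0 := e2
  rw [map_sub, map_add, e7, hx κ, hκ, Lib.MP_4d1bc1_mp.Kv.der_mul,
    Lib.MP_4d1bc1_mp.Kv.der_mul, e6, hx a, ha, pow_two, Lib.MP_4d1bc1_mp.Kv.der_mul, e8,
    map_zero] at h1
  have h2 : (1 : F) = 0 := by linear_combination h1
  exact one_ne_zero h2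

theorem list_iff (f : F) : Lib.MP_4d1bc1_mp.Kv.InList K.jet f
    ↔ (K.FamilyA f ∨ K.FamilyB f ∨ K.FamilyC f) := by
  have key : ∀ a w : F, a ≠ 0 → Lib.MP_4d1bc1_mp.Kv.rf K.jet a w
      = 3 / 2 * (a ^ 2 * K.u 1 2 ^ 2 / (1 + a * K.u 1 1) - a * K.u 2 2)
        + 3 / (2 * a) * (a * K.u 0 2 - 1
          - a ^ 2 * K.u 0 1 * K.u 1 2 / (1 + a * K.u 1 1)) ^ 2 * w := by
    intro a w ha
    have := K.jet.charZero
    have h1 : Lib.MP_4d1bc1_mp.Kv.rb K.jet a 2
        = a⁻¹ * (a * K.u 0 2 - 1 - a ^ 2 * K.u 0 1 * K.u 1 2 / (1 + a * K.u 1 1)) := by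
      rw [Lib.MP_4d1bc1_mp.Kv.rb, if_pos rfl, Lib.MP_4d1bc1_mp.Kv.rZ]
      simp only [jet_u]
      have h2 : a⁻¹ * a = 1 := inv_mul_cancel₀ ha
      rw [div_eq_mul_inv]
      linear_combination (-K.u 0 2 + a * K.u 0 1 * K.u 1 2 * (1 + a * K.u 1 1)⁻¹) * h2
    rw [Lib.MP_4d1bc1_mp.Kv.rf, Lib.MP_4d1bc1_mp.Kv.rh, h1, Lib.MP_4d1bc1_mp.Kv.rZ]
    simp only [jet_u]
    generalize a * K.u 0 2 - 1 - a ^ 2 * K.u 0 1 * K.u 1 2 / (1 + a * K.u 1 1) = t
    have h2 : a * a⁻¹ = 1 := mul_inv_cancel₀ ha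
    have h3 : 3 / (2 * a) = 3 / 2 * a⁻¹ := by
      rw [div_eq_mul_inv, mul_inv, div_eq_mul_inv]
      ring
    rw [h3, div_eq_mul_inv (a ^ 2 * K.u 1 2 ^ 2)]
    linear_combination (3 / 2 * w * t ^ 2 * a⁻¹) * h2
  constructor
  · rintro (h | ⟨a, κ, w, c0, R, h0, hf⟩)
    · exact Or.inl h
    · rcases R.hw with hw | hw
      · refine Or.inr (Or.inl ⟨a, c0, R.ca, h0, R.a0, ?_⟩)
        rw [hf, key a w R.a0, hw]; ring
      · refine Or.inr (Or.inr ⟨a, κ, c0, R.ca, R.cκ, h0, R.a0, ?_⟩)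
        have hH : K.u 0 0 + κ - a * K.u 0 1 ^ 2 / (1 + a * K.u 1 1)
            = K.u 0 0 + κ - a * K.u 0 1 ^ 2 * (Lib.MP_4d1bc1_mp.Kv.rZ K.jet a)⁻¹ := by
          rw [div_eq_mul_inv]; rfl
        have hw' : w = (K.u 0 0 + κ - a * K.u 0 1 ^ 2 / (1 + a * K.u 1 1))⁻¹ := by
          rw [hH]
          exact eq_inv_of_mul_eq_one_left hw
        rw [hf, key a w R.a0, hw', ← div_eq_mul_inv]
  · rintro (h | ⟨a, c0, ha, h0, ha0, hf⟩ | ⟨a, κ, c0, ha, hκ, h0, ha0, hf⟩)
    · exact Or.inl h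
    · refine Or.inr ⟨a, 0, 0, c0, ⟨ha, ha0, fun _ => map_zero _, Or.inl rfl⟩, h0, ?_⟩
      rw [hf, key a 0 ha0]; ring
    · have hH : K.u 0 0 + κ - a * K.u 0 1 ^ 2 / (1 + a * K.u 1 1)
            = K.u 0 0 + κ - a * K.u 0 1 ^ 2 * (Lib.MP_4d1bc1_mp.Kv.rZ K.jet a)⁻¹ := by
          rw [div_eq_mul_inv]; rfl
      refine Or.inr ⟨a, κ, (K.u 0 0 + κ - a * K.u 0 1 ^ 2 / (1 + a * K.u 1 1))⁻¹, c0,
        ⟨ha, ha0, hκ, Or.inr ?_⟩, h0, ?_⟩
      · rw [hH]
        exact inv_mul_cancel₀ (K.H_ne_zero ha hκ)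
      · rw [hf, key a _ ha0, ← div_eq_mul_inv]

end FunctionField

/-- Let `f` be a function of the six variables `u_[i,j]`, `i ≤ j ≤ 2`. The following are
equivalent: the equation `u_t = u_xxx + f u_x` has a symmetry of some order `m ≥ 8` or a
conservation law of some order `m ≥ 11`; it has symmetries of infinitely many orders; it has
symmetries of every odd order; it has conservation laws of infinitely many orders; it has
conservation laws of every even order `m ≥ 4`; `f` belongs to one of the three families. -/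
theorem result (K : FunctionField F) (f : F) (hf : K.IsSix f) :
    List.TFAE [
      (∃ m, 8 ≤ m ∧ ∃ G : F[X], K.IsSymmetry (rhs f) m G) ∨
        (∃ m, 11 ≤ m ∧ ∃ ρ σ : F, K.IsConservationLaw (rhs f) m ρ σ),
      {m : ℕ | ∃ G : F[X], K.IsSymmetry (rhs f) m G}.Infinite,
      ∀ m : ℕ, Odd m → ∃ G : F[X], K.IsSymmetry (rhs f) m G,
      {m : ℕ | ∃ ρ σ : F, K.IsConservationLaw (rhs f) m ρ σ}.Infinite,
      ∀ m : ℕ, Even m → 4 ≤ m → ∃ ρ σ : F, K.IsConservationLaw (rhs f) m ρ σ,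
      K.FamilyA f ∨ K.FamilyB f ∨ K.FamilyC f] := by
  have hs : K.jet.Six f := hf
  tfae_have 1 → 6 := by
    rintro (⟨m, hm, G, hG⟩ | ⟨m, hm, ρ, σ, h1, h2⟩)
    · obtain ⟨g1, g2⟩ := (K.symmetry_iff f m G).1 hG
      exact (K.list_iff f).1 (Lib.MP_4d1bc1_mp.Kv.necessary hs hm g1 g2)
    · obtain ⟨N, hN⟩ := K.jet.exists_bd ρ
      refine (K.list_iff f).1 (Lib.MP_4d1bc1_mp.Kv.necessary_cons hs hs.bd hN (s := σ) ?_ hm ?_)
      · rw [K.jet_evo]; exact h1
      · rw [K.jet_varDer ρ hN]; exact h2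
  tfae_have 6 → 3 := by
    intro h m hm
    obtain ⟨G, g1, g2⟩ := Lib.MP_4d1bc1_mp.Kv.Hier.sym_list ((K.list_iff f).2 h) hm
    exact ⟨G, (K.symmetry_iff f m G).2 ⟨g1, g2⟩⟩
  tfae_have 3 → 2 := by
    intro h
    refine Set.infinite_of_injective_forall_mem (f := fun k : ℕ => 2 * k + 1) ?_ ?_
    · intro a b hab
      have : 2 * a + 1 = 2 * b + 1 := hab
      omega
    · intro k
      exact h (2 * k + 1) ⟨k, rfl⟩
  tfae_have 2 → 1 := by
    intro h
    obtain ⟨m, hm, hm5⟩ := h.exists_gt 7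
    exact Or.inl ⟨m, hm5, hm⟩
  tfae_have 6 → 5 := by
    intro h m hm h4
    obtain ⟨ρ, σ, h1, h2⟩ := Lib.MP_4d1bc1_mp.Kv.Hier.cons_list ((K.list_iff f).2 h) hm h4
    obtain ⟨N, hN⟩ := K.jet.exists_bd ρ
    refine ⟨ρ, σ, ?_, ?_⟩
    · rw [K.jet_evo] at h1; exact h1
    · rw [← K.jet_varDer ρ hN]; exact h2 N hN
  tfae_have 5 → 4 := by
    intro h
    refine Set.infinite_of_injective_forall_mem (f := fun k : ℕ => 2 * (k + 2)) ?_ ?_
    · intro a b hab
      have : 2 * (a + 2) = 2 * (b + 2) := hab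
      omega
    · intro k
      exact h (2 * (k + 2)) (even_two_mul _) (by omega)
  tfae_have 4 → 1 := by
    intro h
    obtain ⟨m, hm, hm5⟩ := h.exists_gt 10
    exact Or.inr ⟨m, hm5, hm⟩
  tfae_finish

end Pool.Agent.Results.MP_4d1bc1_mp.OnlyF1
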